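import Pool.Agent.H15.FLD.Targets

/-!
MP_c62aed_lc, cutting planes for random CNFs: the number of the exceptions of real functions
(row EB0).
-/

set_option autoImplicit false

namespace Pool.Agent.H95.FLD

open Finset Pool.Agent.H15.FLC Pool.Agent.H15.FLD

theorem pf_EB0 (hLX0 : T_LX0) : T_EB0 := by
  classical
  intro n k m H r w d s₀ hr hw hH f i
  induction i with
  | zero => simp [ERC]
  | succ i ih =>
    have hch : IsChain (· ⊆ ·)
        {B : Finset (Fin n → Bool) | ∃ a : ℝ, B = BRC (ERC H r w f i) (f i) a} := by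
      rintro B ⟨a, rfl⟩ B' ⟨b, rfl⟩ _
      rcases le_total a b with hab | hab
      · left
        intro x hx
        simp only [BRC, mem_filter, mem_univ, true_and] at hx ⊢
        exact ⟨hx.1, lt_of_lt_of_le hx.2 hab⟩
      · right
        intro x hx
        simp only [BRC, mem_filter, mem_univ, true_and] at hx ⊢
        exact ⟨hx.1, lt_of_lt_of_le hx.2 hab⟩
    have h1 := hLX0 H r w d s₀ hr hw hH _ hch
    have h2 : (univ.filter fun x : Fin n → Bool =>
        ∃ a : ℝ, x ∈ ErrC H r w (BRC (ERC H r w f i) (f i) a)).card ≤ tau0 n w d s₀ := by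
      refine le_trans (le_of_eq ?_) h1
      rw [Nat.card_eq_fintype_card, Fintype.card_subtype]
      congr 1
      ext x
      simp only [mem_filter, mem_univ, true_and, Set.mem_ofPred_eq]
      constructor
      · rintro ⟨a, ha⟩
        exact ⟨_, ⟨a, rfl⟩, ha⟩
      · rintro ⟨B, ⟨a, rfl⟩, ha⟩
        exact ⟨a, ha⟩
    have h3 : (ERC H r w f (i + 1)).card ≤ (ERC H r w f i).card +
        (univ.filter fun x : Fin n → Bool =>
          ∃ a : ℝ, x ∈ ErrC H r w (BRC (ERC H r w f i) (f i) a)).card := by
      rw [ERC]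
      refine le_trans (card_union_le _ _) ?_
      refine Nat.add_le_add_left (le_of_eq ?_) _
      congr 1
    calc (ERC H r w f (i + 1)).card ≤ i * tau0 n w d s₀ + tau0 n w d s₀ :=
          le_trans h3 (Nat.add_le_add ih h2)
      _ = (i + 1) * tau0 n w d s₀ := by ring

end Pool.Agent.H95.FLD
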