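import Pool.Agent.H15.FLD.Targets
import Pool.Agent.H50.FL2.LXC

/-!
MP_c62aed_lc, cutting planes for random CNFs: the exceptions of a chain (row LX0).
-/

set_option autoImplicit false

namespace Pool.Agent.H95.FLD

open Finset Pool.Agent.H15.FLC Pool.Agent.H15.FLD
open Pool.Agent.H50.FL2 (RA card_agree insC_congr kerC_congr)

theorem card_ins_lt {n k m : ℕ} (H : Fin m → Half n k) {A A' : Finset (Fin n)}
    {x z : Fin n → Bool} (h : ∀ a ∈ A, z a = x a) (hA : A ⊆ A')
    {c : Fin m} (hc : ¬ (H c).1.1 ⊆ A) (hc' : InsC H (A', z) c) :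
    Nat.card {c // InsC H (A, x) c} + 1 ≤ Nat.card {c // InsC H (A', z) c} := by
  classical
  rw [Nat.card_eq_fintype_card, Nat.card_eq_fintype_card, Fintype.card_subtype,
    Fintype.card_subtype, Nat.add_one_le_iff]
  apply card_lt_card
  refine ⟨fun i hi => ?_, fun h' => hc ?_⟩
  · rw [mem_filter] at hi ⊢
    have h1 := insC_congr H (A := A) (x := z) (y := x) (fun a ha => (h a ha).symm) hi.2
    exact ⟨hi.1, h1.1.trans hA, h1.2⟩
  · have := h' (mem_filter.2 ⟨mem_univ c, hc'⟩)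
    exact (mem_filter.1 this).2.1

theorem pf_LX0 : T_LX0 := by
  classical
  intro n k m H r w d s₀ hr hw hH 𝒞 hC
  let Z : Finset (Fin n → Bool) := univ.filter (fun x => ∃ B ∈ 𝒞, x ∈ ErrC H r w B)
  have h3 : Nat.card {x : Fin n → Bool // ∃ B ∈ 𝒞, x ∈ ErrC H r w B} = Z.card := by
    rw [Nat.card_eq_fintype_card, Fintype.card_subtype]
  rw [h3]
  by_contra hcon
  push Not at hcon
  have hR : ∀ y ∈ Z, ∃ B ∈ 𝒞, y ∈ ErrC H r w B := fun y hy => (mem_filter.1 hy).2
  let K : Finset (Fin n) → (Fin n → Bool) → ℕ := fun A x => Nat.card {c // InsC H (A, x) c}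
  let P : Finset (Finset (Fin n) × (Fin n → Bool)) := univ.filter (fun p => p.1.card ≤ w + k)
  have hP : P.Nonempty := ⟨(∅, fun _ => false), mem_filter.2 ⟨mem_univ _, by simp⟩⟩
  obtain ⟨⟨A, x⟩, hAP, hmax⟩ := exists_max_image P
    (fun p => (RA Z p.1 p.2).card * 2 ^ (d * K p.1 p.2)) hP
  have hAk : A.card ≤ w + k := (mem_filter.1 hAP).2
  have hmax' : ∀ (A' : Finset (Fin n)) (x' : Fin n → Bool), A'.card ≤ w + k →
      (RA Z A' x').card * 2 ^ (d * K A' x') ≤ (RA Z A x).card * 2 ^ (d * K A x) :=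
    fun A' x' h => hmax (A', x') (mem_filter.2 ⟨mem_univ _, h⟩)
  have hbig : tau0 n w d s₀ < (RA Z A x).card * 2 ^ (d * K A x) := by
    have h4 := hmax' ∅ (fun _ => false) (by simp)
    have h5 : RA Z ∅ (fun _ => false) = Z := by
      unfold RA
      apply filter_true_of_mem
      intro y _ a ha
      exact absurd ha (notMem_empty a)
    rw [h5] at h4
    refine lt_of_lt_of_le hcon (le_trans ?_ h4)
    exact Nat.le_mul_of_pos_right _ (by positivity)
  have hwA : A.card < w := by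
    by_contra hle
    push Not at hle
    have h4 := card_agree A x Z
    have h5 : 2 ^ (n - A.card) ≤ 2 ^ (n - w) := Nat.pow_le_pow_right (by norm_num) (by omega)
    have h6 : 2 ^ (d * K A x) ≤ 2 ^ (d * s₀) :=
      Nat.pow_le_pow_right (by norm_num) (Nat.mul_le_mul_left d (hH A hAk x))
    have h7 : (RA Z A x).card * 2 ^ (d * K A x) ≤ tau0 n w d s₀ := by
      unfold tau0
      rw [mul_comm (2 ^ (d * s₀))]
      exact Nat.mul_le_mul (h4.trans h5) h6
    omega
  have hpos : 0 < (RA Z A x).card := by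
    rcases Nat.eq_zero_or_pos (RA Z A x).card with h0 | h0
    · rw [h0, zero_mul] at hbig
      omega
    · exact h0
  obtain ⟨y0, hy0⟩ := card_pos.1 hpos
  -- the members of the chain whose kernel misses `(A, x)`
  have hmiss : ∀ y ∈ RA Z A x, ∃ B ∈ 𝒞, y ∈ ErrC H r w B ∧ (A, x) ∉ KerC H r w B := by
    intro y hy
    obtain ⟨hyR, hyA⟩ := mem_filter.1 hy
    obtain ⟨B, hB, hyB⟩ := hR y hyR
    refine ⟨B, hB, hyB, fun hk => ?_⟩
    have h3 := (mem_filter.1 hyB).2 A hwA
    exact h3 (kerC_congr H (fun a ha => (hyA a ha).symm) hk)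
  let 𝒟 : Finset (Finset (Fin n → Bool)) :=
    univ.filter (fun B => B ∈ 𝒞 ∧ (A, x) ∉ KerC H r w B)
  have hD : 𝒟.Nonempty := by
    obtain ⟨B, hB, _, hk⟩ := hmiss y0 hy0
    exact ⟨B, mem_filter.2 ⟨mem_univ _, hB, hk⟩⟩
  obtain ⟨B, hB, hmaxB⟩ := exists_max_image 𝒟 card hD
  obtain ⟨_, hBC, hBk⟩ := mem_filter.1 hB
  have hsub : ∀ y ∈ RA Z A x, y ∈ B := by
    intro y hy
    obtain ⟨B2, hB2, hy2, hk2⟩ := hmiss y hy
    have h3 := hmaxB B2 (mem_filter.2 ⟨mem_univ _, hB2, hk2⟩)
    have h4 : B2 ⊆ B := by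
      rcases hC.total hB2 hBC with h | h
      · exact h
      · exact (eq_of_subset_of_card_le h h3).symm.subset
    exact h4 (mem_filter.1 hy2).1
  have hT : ∃ T : Finset (Fin m), T.card ≤ r ∧ CovC H T B ∧
      ∀ c ∈ T, ¬ InsC H (A, x) c := by
    by_contra hno
    push Not at hno
    exact hBk ⟨hwA, fun T h3 h4 => by
      obtain ⟨c, hc, hc'⟩ := hno T h3 h4
      exact ⟨c, hc, hc'⟩⟩
  obtain ⟨T, hTr, hTc, hTn⟩ := hT
  have hcov : RA Z A x ⊆
      T.biUnion (fun c => (RA Z A x).filter (fun y => Violates (H c) y)) := by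
    intro y hy
    obtain ⟨c, hc, hv⟩ := hTc y (hsub y hy)
    exact mem_biUnion.2 ⟨c, hc, mem_filter.2 ⟨hy, hv⟩⟩
  have hbound : ∀ c ∈ T, ((RA Z A x).filter (fun y => Violates (H c) y)).card * 2 ^ d ≤
      (RA Z A x).card := by
    intro c hc
    rcases ((RA Z A x).filter (fun y => Violates (H c) y)).eq_empty_or_nonempty with
      h | ⟨z, hz⟩
    · rw [h, card_empty, zero_mul]; exact Nat.zero_le _
    · have hz1 := mem_filter.1 hz
      have hz2 := (mem_filter.1 hz1.1).2
      have hnot : ¬ (H c).1.1 ⊆ A := by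
        intro hs
        exact hTn c hc (insC_congr H hz2 ⟨hs, hz1.2⟩)
      have hcard : (A ∪ (H c).1.1).card ≤ w + k := by
        have := card_union_le A (H c).1.1
        have := (H c).1.2
        omega
      have hK : K A x + 1 ≤ K (A ∪ (H c).1.1) z :=
        card_ins_lt H hz2 subset_union_left hnot ⟨subset_union_right, hz1.2⟩
      have hS : (RA Z A x).filter (fun y => Violates (H c) y) ⊆ RA Z (A ∪ (H c).1.1) z := by
        intro y hy
        obtain ⟨hy1, hy2⟩ := mem_filter.1 hy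
        obtain ⟨hy3, hy4⟩ := mem_filter.1 hy1
        refine mem_filter.2 ⟨hy3, fun a ha => ?_⟩
        rcases mem_union.1 ha with h | h
        · rw [hy4 a h, hz2 a h]
        · have h8 := hy2 a h
          have h9 := hz1.2 a h
          rw [← Bool.eq_not] at h8 h9
          rw [h8, h9]
      have h4 := hmax' (A ∪ (H c).1.1) z hcard
      have h5 : (RA Z (A ∪ (H c).1.1) z).card * 2 ^ (d * (K A x + 1)) ≤
          (RA Z A x).card * 2 ^ (d * K A x) := by
        refine le_trans (Nat.mul_le_mul_left _ ?_) h4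
        exact Nat.pow_le_pow_right (by norm_num) (Nat.mul_le_mul_left d hK)
      have h6 : ((RA Z (A ∪ (H c).1.1) z).card * 2 ^ d) * 2 ^ (d * K A x) ≤
          (RA Z A x).card * 2 ^ (d * K A x) := by
        refine le_trans (le_of_eq ?_) h5
        ring
      have h7 := Nat.le_of_mul_le_mul_right h6 (by positivity)
      exact (Nat.mul_le_mul_right _ (card_le_card hS)).trans h7
  have hfin : (RA Z A x).card * 2 ^ d ≤ r * (RA Z A x).card := by
    calc (RA Z A x).card * 2 ^ d
        ≤ (T.biUnion (fun c => (RA Z A x).filter (fun y => Violates (H c) y))).card * 2 ^ d :=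
          Nat.mul_le_mul_right _ (card_le_card hcov)
      _ ≤ (∑ c ∈ T, ((RA Z A x).filter (fun y => Violates (H c) y)).card) * 2 ^ d :=
          Nat.mul_le_mul_right _ card_biUnion_le
      _ = ∑ c ∈ T, ((RA Z A x).filter (fun y => Violates (H c) y)).card * 2 ^ d := sum_mul _ _ _
      _ ≤ ∑ c ∈ T, (RA Z A x).card := sum_le_sum hbound
      _ = T.card * (RA Z A x).card := by rw [sum_const, smul_eq_mul]
      _ ≤ r * (RA Z A x).card := Nat.mul_le_mul_right _ hTr
  rw [mul_comm] at hfin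
  have := Nat.le_of_mul_le_mul_right hfin hpos
  omega

end Pool.Agent.H95.FLD
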